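import Pool.Agent.Helper478_Joint.Main

/-!
# Joint digits of the tuples `(x₁ n ^ θ, …, x_r n ^ θ)` for almost all `n`

Let `x₁, …, x_r` be real numbers, linearly independent over `ℚ` (for instance algebraic numbers such that
`1, x₁, …, x_r` are linearly independent), and let `θ` be a real number in `[-1, 1)`, `θ ≠ 0`. For all but
`N exp(-√log N)` of the `n` in `(N, 2N]` the tuple `(x₁ n ^ θ, …, x_r n ^ θ)` has the following
property in every base `b ≥ 2`: in every window of `(log N)^(1-γ)` or more places among the first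
`(log N)^(1+γ) / log b` places, which begins after the first `δ log N` digits, the digit matrices
stand with the right frequencies, up to `ε`, and uniformly for all boxes. For `θ = -1` these are the tuples
`(x₁ / n, …, x_r / n)` of quotients; each of them is normal if and only if `(x₁, …, x_r)` is. For `θ = 1 / 2` and
algebraic `x_j` these are tuples of algebraic numbers such as `(√n, √(2 n), √(3 n))`.

Proof. By the criterion of Weyl one has to bound `∑ e(α b ^ i n ^ θ)`, `α = ∑ h_j x_j ≠ 0`, over the places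
`i` of a window. The moments of these sums of high order, over `n`, are those of a lacunary
sequence with independent terms, by the estimates of Vinogradov and Korobov for `∑_n e(F n ^ θ)` with
`N ^ δ ≤ F N ^ θ ≤ exp((log N)^(1+γ))` (Riesz products). A union bound over the bases and over the windows
gives the result.
-/

set_option autoImplicit false

namespace Pool.Agent.Results.MP_c8ecb2_nt.JointSurdsAndQuotients

/-- The points `(z 1 * b ^ i, …, z r * b ^ i)`, `u < i ≤ v`, are equidistributed modulo one up to `ε`: for all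
boxes `∏ [p j, q j)` in the unit cube the number of the `i` in `(u, v]` for which the fractional part of
`z j * b ^ i` lies in `[p j, q j)` for all `j` differs from `v - u` times the volume of the box by at most
`ε (v - u)`. (The `r × m` digit matrix of `z` in base `b` which begins at the place `i + 1` is equal to
`D` if and only if the fractional part of `z j * b ^ i` lies in `[D_j / b ^ m, (D_j + 1) / b ^ m)` for all
`j`, where `D_j` is the integer with the digits of the row `j` of `D`.) -/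
def JointEqui {r : ℕ} (b u v : ℕ) (ε : ℝ) (z : Fin r → ℝ) : Prop :=
  ∀ p q : Fin r → ℝ, (∀ j, 0 ≤ p j ∧ p j ≤ q j ∧ q j ≤ 1) →
    |(({i : ℕ | u < i ∧ i ≤ v ∧ ∀ j, p j ≤ Int.fract (z j * (b : ℝ) ^ i) ∧
      Int.fract (z j * (b : ℝ) ^ i) < q j}.ncard : ℕ) : ℝ) - ((v : ℝ) - u) * ∏ j, (q j - p j)| ≤
        ε * ((v : ℝ) - u)

/-- There is an absolute constant `γ > 0` such that for all real `θ ∈ [-1, 1)`, `θ ≠ 0`, all real numbers
`x 1, …, x r`, linearly independent over `ℚ`, and all `δ, ε > 0` the following holds for all large `N`. For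
all but at most `N exp(-√log N)` of the integers `n` in `(N, 2N]` the tuple `(x 1 * n ^ θ, …, x r * n ^ θ)` is
jointly equidistributed up to `ε` in all bases `b ≥ 2` and in all windows `(u, v]` of places with
`v - u ≥ (log N)^(1-γ)`, `v log b ≤ (log N)^(1+γ)` and `b ^ u * N ^ θ ≥ N ^ δ`. -/
theorem result : ∃ γ : ℝ, 0 < γ ∧ ∀ θ : ℝ, -1 ≤ θ → θ < 1 → θ ≠ 0 → ∀ (r : ℕ) (x : Fin r → ℝ),
    LinearIndependent ℚ x → ∀ δ : ℝ, 0 < δ → ∀ ε : ℝ, 0 < ε → ∃ N₀ : ℕ, ∀ N : ℕ, N₀ ≤ N →
      (({n : ℕ | N < n ∧ n ≤ 2 * N ∧ ¬ ∀ b u v : ℕ, 2 ≤ b → (Real.log N) ^ (1 - γ) ≤ (v : ℝ) - u →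
        v * Real.log b ≤ (Real.log N) ^ (1 + γ) → (N : ℝ) ^ δ ≤ (b : ℝ) ^ u * (N : ℝ) ^ θ →
        JointEqui b u v ε (fun j => x j * (n : ℝ) ^ θ)}.ncard : ℕ) : ℝ) ≤
          N * Real.exp (-√(Real.log N)) := by
  obtain ⟨γ, hγ0, hγ1, h⟩ := Pool.Agent.Helper478.Joint.joint
  refine ⟨γ, hγ0, ?_⟩
  intro θ h1 h2 h3 r x hx δ hδ ε hε
  obtain ⟨N₀, hN₀⟩ := h θ h1 h2 h3 r x hx δ hδ ε hε
  refine ⟨N₀, fun N hN => le_trans (le_of_eq ?_) (hN₀ N hN)⟩
  congr 2
  ext n
  simp only [Set.mem_setOf_eq]
  refine and_congr_right fun _ => and_congr_right fun _ => ?_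
  constructor
  · intro hn
    push Not at hn
    obtain ⟨b, u, v, a1, a2, a3, a4, a5⟩ := hn
    unfold JointEqui at a5
    push Not at a5
    obtain ⟨p, q, a6, a7⟩ := a5
    exact ⟨b, u, v, a1, a2, a3, a4, p, q, a6, a7⟩
  · rintro ⟨b, u, v, a1, a2, a3, a4, p, q, a6, a7⟩ hn
    exact absurd a7 (not_lt.2 (hn b u v a1 a2 a3 a4 p q a6))

end Pool.Agent.Results.MP_c8ecb2_nt.JointSurdsAndQuotients
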