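import Pool.Agent.Helper161SP.Span

/-!
# Sumsets of the places of the digits of tuples of elements of a real number field

`digit b x k` is the `k`-th digit after the point of `x` in base `b`, `places b e x n` is the number of
`1 ≤ k ≤ n` with `digit b x k ≠ e`, and `sums b e x n` is the number of `1 ≤ m ≤ n` which are a
sum `k 0 + k 1 + ⋯` of places `k i ≥ 1` with `digit b (x i) (k i) ≠ e i`.

## The idea of the proof

We may assume `e i = 0` and `1 < x i < 2`, so that the expansion of `x i` is a power series
`F i` with non-negative coefficients and constant term one.  The carries in the product of all expansions are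
controlled by its tails `t m`.  Multiplying a relation `q x 0 x 1 ⋯ x s = ∑ p I ∏ i ∈ I, x i` (which exists
because the products of the numbers `x 1, …, x s` span the field) by `b ^ m` one obtains an integer, and this
integer vanishes if `t m` and the tails of the products on the right are small.  Ridout's theorem bounds
the number of `m` for which this can happen by the number of the sums of places of the numbers `x 1, …, x s`
up to a logarithm; for all other `m` the tail `t m` is bounded from below, and as the sum of all tails is at most a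
constant times the product of the digit sums, such `m` are close to the support of the product.
-/

set_option autoImplicit false

open Finset Filter IntermediateField

namespace Pool.Agent.Results.MP_c8ecb2_nt.SumsetsOfPlaces

/-- the `k`-th digit after the point of `x` in base `b` -/
noncomputable def digit (b : ℕ) (x : ℝ) (k : ℕ) : ℤ := ⌊x * (b : ℝ) ^ k⌋ % (b : ℤ)

/-- the number of `1 ≤ k ≤ n` for which the `k`-th digit of `x` is not `e` -/
noncomputable def places (b : ℕ) (e : ℤ) (x : ℝ) (n : ℕ) : ℕ :=
  ((Icc 1 n).filter fun k => digit b x k ≠ e).card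

open Classical in
/-- the number of `1 ≤ m ≤ n` which are the sum of integers `k i ≥ 1` such that for all `i` the
`k i`-th digit of `x i` is not `e i` -/
noncomputable def sums (b : ℕ) {r : ℕ} (e : Fin r → ℤ) (x : Fin r → ℝ) (n : ℕ) : ℕ :=
  ((Icc 1 n).filter fun m => ∃ k : Fin r → ℕ,
    (∀ i, 1 ≤ k i ∧ digit b (x i) (k i) ≠ e i) ∧ ∑ i, k i = m).card

theorem result :
    -- (1) elements `x 0, …, x s` of a real number field `K`, the products of distinct terms of
    -- `x 1, …, x s` spanning `K`
    (∀ b : ℕ, 2 ≤ b → ∀ K : IntermediateField ℚ ℝ, FiniteDimensional ℚ K →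
      ∀ (s : ℕ) (x : Fin (s + 1) → ℝ), (∀ i, x i ∈ K) → (∀ i, Irrational (x i)) →
      (Submodule.span ℚ (Set.range fun I : Finset (Fin s) => ∏ i ∈ I, x i.succ) : Set ℝ) =
        (K : Set ℝ) →
      ∀ e : Fin (s + 1) → ℤ, (∀ i, e i = 0 ∨ e i = b - 1) →
      ∃ c : ℝ, 0 < c ∧ ∀ᶠ n : ℕ in atTop,
        c * n ≤ sums b e x n * Real.log (2 + (∏ i, (places b (e i) (x i) n : ℝ)) / n) ∧
        c * n ≤ sums b e x n * Real.log n) ∧
    -- (2) an irrational element `θ` of the field generated by `α`, and `s` times `α`, where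
    -- `s + 1` is the degree of `α`
    (∀ b : ℕ, 2 ≤ b → ∀ α : ℝ, IsAlgebraic ℚ α → Irrational α →
      ∀ s : ℕ, (minpoly ℚ α).natDegree = s + 1 → ∀ θ ∈ ℚ⟮α⟯, Irrational θ →
      ∀ d e : ℤ, (d = 0 ∨ d = b - 1) → (e = 0 ∨ e = b - 1) →
      ∃ c : ℝ, 0 < c ∧ ∀ᶠ n : ℕ in atTop,
        c * n ≤ sums b (Fin.cons d (fun _ : Fin s => e) : Fin (s + 1) → ℤ)
            (Fin.cons θ (fun _ : Fin s => α) : Fin (s + 1) → ℝ) n *
          Real.log (2 + (places b d θ n : ℝ) * (places b e α n : ℝ) ^ s / n) ∧
        c * n ≤ sums b (Fin.cons d (fun _ : Fin s => e) : Fin (s + 1) → ℤ)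
            (Fin.cons θ (fun _ : Fin s => α) : Fin (s + 1) → ℝ) n * Real.log n) := by
  have main : ∀ b : ℕ, 2 ≤ b → ∀ K : IntermediateField ℚ ℝ, FiniteDimensional ℚ K →
      ∀ (s : ℕ) (x : Fin (s + 1) → ℝ), (∀ i, x i ∈ K) → (∀ i, Irrational (x i)) →
      (Submodule.span ℚ (Set.range fun I : Finset (Fin s) => ∏ i ∈ I, x i.succ) : Set ℝ) =
        (K : Set ℝ) →
      ∀ e : Fin (s + 1) → ℤ, (∀ i, e i = 0 ∨ e i = b - 1) →
      ∃ c : ℝ, 0 < c ∧ ∀ᶠ n : ℕ in atTop,
        c * n ≤ sums b e x n * Real.log (2 + (∏ i, (places b (e i) (x i) n : ℝ)) / n) ∧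
        c * n ≤ sums b e x n * Real.log n := by
    classical
    intro b hb K hK s x hx hirr hspan e he
    obtain ⟨c, hc, h⟩ := Pool.Agent.Helper161SP.sums_both hb K hK hx hirr hspan he
    refine ⟨c, hc, ?_⟩
    filter_upwards [h] with n hn
    have h1 : sums b e x n =
        ((Icc 1 n).filter (Pool.Agent.Helper161SP.IsSum (Pool.Agent.Helper161SP.Ne b x e))).card := by
      unfold sums
      congr!
    have h2 : ∀ i, places b (e i) (x i) n =
        ((Icc 1 n).filter (Pool.Agent.Helper161SP.Ne b x e i)).card := by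
      intro i
      unfold places
      congr 1
      ext k
      simp only [mem_filter, mem_Icc]
      constructor
      · rintro ⟨h3, h4⟩
        exact ⟨h3, h3.1, h4⟩
      · rintro ⟨h3, -, h4⟩
        exact ⟨h3, h4⟩
    simp only [h1, h2]
    exact hn
  refine ⟨main, ?_⟩
  intro b hb α halg hα s hs θ hθ hirr d e hd he
  obtain ⟨c, hc, h⟩ := main b hb ℚ⟮α⟯ (adjoin.finiteDimensional halg.isIntegral) s
    (Fin.cons θ (fun _ : Fin s => α) : Fin (s + 1) → ℝ)
    (by
      intro i
      refine Fin.cases ?_ (fun j => ?_) i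
      · simpa using hθ
      · simpa using mem_adjoin_simple_self ℚ α)
    (by
      intro i
      refine Fin.cases ?_ (fun j => ?_) i
      · simpa using hirr
      · simpa using hα)
    (by
      simp only [Fin.cons_succ]
      exact Pool.Agent.Helper161SP.pow_span halg hs)
    (Fin.cons d (fun _ : Fin s => e) : Fin (s + 1) → ℤ)
    (by
      intro i
      refine Fin.cases ?_ (fun j => ?_) i
      · simpa using hd
      · simpa using he)
  refine ⟨c, hc, ?_⟩
  filter_upwards [h] with n hn
  have h1 : (∏ i : Fin (s + 1), (places b ((Fin.cons d (fun _ : Fin s => e) : Fin (s + 1) → ℤ) i)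
      ((Fin.cons θ (fun _ : Fin s => α) : Fin (s + 1) → ℝ) i) n : ℝ)) =
      (places b d θ n : ℝ) * (places b e α n : ℝ) ^ s := by
    rw [Fin.prod_univ_succ]
    simp only [Fin.cons_zero, Fin.cons_succ, prod_const, card_univ, Fintype.card_fin]
  rw [h1] at hn
  exact hn

end Pool.Agent.Results.MP_c8ecb2_nt.SumsetsOfPlaces
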